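import Pool.Agent.H21.OneP.Loc

/-! Module B11: a bad side. -/

namespace Pool.Agent.H21.OneP

open Equiv Equiv.Perm Pool.Agent.H74.OneP Pool.Agent.H74.OneP.Drawing

theorem side {M : Drawing} (G : M.Good) (hv : VisitStmt) (ht : TriStmt) (hc : CornerStmt)
    (h2 : TwoStmt) {c k s : M.D} (ic : inter c) (d2 : M.rot (M.rot c) ≠ c)
    (hk : ¬ M.cr k) (hk' : ¬ M.cr (M.rev k)) (k1 : M.org k = M.org (M.rev (M.rot c)))
    (k2 : M.org (M.rev k) = M.org (M.rev c)) (hs : ¬ M.cr s) (hsf : M.fac s = M.fac k)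
    (s1 : M.org s ≠ M.org c) (s2 : M.org s ≠ M.org (M.rev (M.rot c)))
    (s3 : M.org s ≠ M.org (M.rev c)) (hg : ¬ gs k) :
    M.nxt c = M.rev k ∧ M.rot (M.rev (M.rot c)) = k := by
  have oc : M.org (M.rot c) = M.org c := org_rot c
  have d1 : M.rot c ≠ c := (hv M G).2 c (ic c rfl).1
  have irc : inter (M.rot c) := fun e' h => ic e' (h.trans oc)
  have key : M.fac c = M.fac (M.rev k) := by
    by_contra hcon
    apply hg
    apply h2 M G k hk hk'
    intro t ht1 ht2
    by_contra h
    push Not at h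
    obtain ⟨n1, n2⟩ := h
    have ot : M.org t = M.org c := by
      by_contra hno
      exact tri G ht irc oc.symm d1 hk hk' k1 k2 hs hsf (by rw [oc]; exact s1) s2 s3 ht1 ht2
        (by rw [oc]; exact hno) (by rw [← k1]; exact n1) (by rw [← k2]; exact n2)
    have it : inter t := fun e' h => ic e' (h.trans ot)
    have ort : M.org (M.rot t) = M.org c := (org_rot t).trans ot
    have c1 := (hc M G t it).1 (M.rev k) hk' ht2.symm
    have c2 := (hc M G t it).1 (M.nxt (M.rev k)) (by rw [cr_congr (org_nxt _), rev_rev']; exact hk)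
      ((fac_nxt _).trans ht2.symm)
    rw [org_nxt, rev_rev', k1, ot] at c2
    rw [k2, ot] at c1
    rcases c1 with c1 | c1 | c1
    · exact eNe G ic rfl c1
    · have hct := eInj G ic rfl ot c1
      rw [hct] at hcon
      exact hcon ht2
    · have hct := eInj G ic rfl ort c1
      rcases c2 with c2 | c2 | c2
      · exact eNe G ic oc c2
      · have := eInj G ic oc ot c2
        rw [← this] at hct
        exact d2 hct.symm
      · have := eInj G ic oc ort c2
        rw [← this] at hct
        exact d1 hct.symm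
  have r1 : ¬ M.cr (M.nxt c) := by rw [cr_congr (org_nxt c)]; exact (ic c rfl).2
  have e1 : M.nxt c = M.rev k := (hv M G).1 _ _ r1 hk' ((fac_nxt _).trans key)
    ((org_nxt c).trans k2.symm)
  refine ⟨e1, ?_⟩
  rcases (hc M G c ic).2 with h | h
  · have h3 := h.2
    rw [e1, nxt_apply, rev_rev'] at h3
    rw [← h3]; simp
  · have h3 := h.1
    rw [e1, rev_rev'] at h3
    exact absurd h3 hk

theorem b11 (hv : VisitStmt) (ht : TriStmt) (hc : CornerStmt) (hd : DegStmt) (ha : AcrossStmt)
    (h2 : TwoStmt) (he : EvenStmt) (hb : TwoBadStmt) : BadStmt := by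
  classical
  intro M G X e ie hno hbad
  have r0 : ¬ M.cr e := (ie e rfl).1
  have r0' : ¬ M.cr (M.rev e) := (ie e rfl).2
  have d1 : M.rot e ≠ e := (hv M G).2 e r0
  have d2 : M.rot (M.rot e) ≠ e := fun h => hbad (he M G X e ie (Or.inl h))
  have d3 : M.rot (M.rot (M.rot e)) = e := by
    rcases hd M G e ie with h | h | h
    · exact absurd h d2
    · exact h
    · exact absurd (he M G X e ie (Or.inr ⟨h.1, d2⟩)) hbad
  have o1 : M.org (M.rot e) = M.org e := org_rot e
  have o2 : M.org (M.rot (M.rot e)) = M.org e := (org_rot _).trans o1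
  have hncr : ¬ M.cr (M.rev (M.nxt e)) := fun h => hbad (Or.inl h)
  have hnn : M.nxt (M.nxt e) = M.rev (M.rot e) := by
    rcases (hc M G e ie).2 with h | h
    · exact h.2
    · exact absurd h.1 hncr
  -- names
  set e1 := M.rot e with he1
  set e2 := M.rot e1 with he2
  set n := M.nxt e with hn
  set m := M.rev n with hm
  have i1 : inter e1 := fun e' h => ie e' (h.trans o1)
  have i2 : inter e2 := fun e' h => ie e' (h.trans o2)
  have r1' : ¬ M.cr (M.rev e1) := (ie e1 o1).2
  have r2' : ¬ M.cr (M.rev e2) := (ie e2 o2).2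
  have rn : ¬ M.cr n := by rw [hn, cr_congr (org_nxt e)]; exact r0'
  have on : M.org n = M.org (M.rev e) := org_nxt e
  have om : M.org m = M.org (M.rev e1) := by
    rw [hm, ← org_nxt n, hnn]
  have rm : M.rev m = n := by rw [hm, rev_rev']
  have xy : M.org (M.rev e) ≠ M.org (M.rev e1) := fun h => d1 (eInj G ie rfl o1 h).symm
  have xz : M.org (M.rev e) ≠ M.org (M.rev e2) := fun h => d2 (eInj G ie rfl o2 h).symm
  have yz : M.org (M.rev e1) ≠ M.org (M.rev e2) := fun h =>
    d1 (M.rot.injective (eInj G ie o1 o2 h)).symm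
  have wx : M.org (M.rev e) ≠ M.org e := eNe G ie rfl
  have wy : M.org (M.rev e1) ≠ M.org e := eNe G ie o1
  have wz : M.org (M.rev e2) ≠ M.org e := eNe G ie o2
  -- vertices on the face of m
  have hface : ∀ t, ¬ M.cr t → M.fac t = M.fac m →
      M.org t = M.org (M.rev e) ∨ M.org t = M.org (M.rev e1) ∨ M.org t = M.org (M.rev e2) := by
    intro t ht1 ht2
    rcases ha M G X e ie hncr t ht1 ht2 with h | h | ⟨e', h1, h3, h4, h5⟩
    · exact Or.inl h
    · exact Or.inr (Or.inl h)
    · right; right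
      rcases org3 d3 h1 with h6 | h6 | h6
      · exact absurd h6 h3
      · exact absurd h6 h4
      · rw [h5, h6]
  -- z is on it
  obtain ⟨b, rb, fb, ob⟩ : ∃ b, ¬ M.cr b ∧ M.fac b = M.fac m ∧ M.org b = M.org (M.rev e2) := by
    by_contra hcon
    apply hbad
    apply h2 M G n rn hncr
    intro t ht1 ht2
    rcases hface t ht1 ht2 with h | h | h
    · left; rw [h, on]
    · right; rw [h, ← om]
    · exact absurd ⟨t, ht1, ht2, h⟩ hcon
  have visit : ∀ a b, ¬ M.cr a → ¬ M.cr b → M.fac a = M.fac m → M.fac b = M.fac m →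
      M.org a = M.org b → a = b := fun a b h1 h2 h3 h4 h5 => (hv M G).1 a b h1 h2 (h3.trans h4.symm) h5
  set k3 := M.nxt m with hk3
  have f3 : M.fac k3 = M.fac m := fac_nxt m
  have ok3 : M.org k3 = M.org (M.rev e) := by rw [hk3, org_nxt, rm, on]
  have rk3 : ¬ M.cr k3 := by rw [cr_congr ok3]; exact r0'
  have mne : m ≠ k3 := by
    intro h; apply xy; rw [← ok3, ← h, om]
  -- k3 uncrossed
  have H3 : ¬ M.cr (M.rev k3) → M.org (M.rev k3) = M.org (M.rev e2) := by
    intro hk
    have r : ¬ M.cr (M.nxt k3) := by rw [cr_congr (org_nxt k3)]; exact hk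
    have hf : M.fac (M.nxt k3) = M.fac m := (fac_nxt k3).trans f3
    rcases hface _ r hf with h | h | h
    · exfalso
      rw [org_nxt, ← ok3] at h
      exact noLoop' G rk3 hk h
    · exfalso
      rw [org_nxt] at h
      have h5 : k3 = n := G.no_multi rk3 (ok3.trans on.symm) (by
        rw [far_of_not hk, far_of_not hncr, h, ← hm, om])
      have h6 : M.rot k3 = n := by rw [hk3, rot_nxt, rm]
      rw [h5] at h6
      exact (hv M G).2 n rn h6
    · rw [← org_nxt k3, h]
  have rotrev : M.rot n = M.rev e := by rw [hn, rot_nxt]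
  have rotk3 : M.rot k3 = n := by rw [hk3, rot_nxt, rm]
  have rotrev1 : M.rot (M.rev e1) = m := by
    rw [← hnn, rot_nxt]
  have e12 : e1 ≠ e2 := fun h => d1 (M.rot.injective h).symm
  have g3 : gs k3 := by
    by_contra hg
    have hk : ¬ M.cr (M.rev k3) := fun h => hg (Or.inl h)
    have he3 : M.rot e2 = e := d3
    have hs := side G hv ht hc h2 (c := e2) (k := k3) (s := m) i2
      (by rw [he3]; exact e12) rk3 hk
      (by rw [he3]; exact ok3) (H3 hk)
      (by rw [cr_congr om]; exact r1') f3.symm (by rw [om, o2]; exact wy)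
      (by rw [om, he3]; exact xy.symm) (by rw [om]; exact yz) hg
    have h4 := hs.2
    rw [he3] at h4
    apply hno e rfl
    intro e' h'
    have h7 : M.rot (M.rot (M.rot (M.rev e))) = M.rev e := by rw [h4, rotk3, rotrev]
    rcases org3 h7 h' with h | h | h
    · rw [h, rev_rev']; exact ⟨r0', r0⟩
    · rw [h, h4]; exact ⟨rk3, hk⟩
    · rw [h, h4, rotk3]; exact ⟨rn, hncr⟩
  -- the next side
  set k4 := nx k3 with hk4
  have rmm : ¬ M.cr m := by rw [cr_congr om]; exact r1'
  have K4 : (¬ M.cr (M.rev k3) ∧ k4 = M.nxt k3) ∨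
      (M.cr (M.rev k3) ∧ k4 = M.nxt (M.nxt k3)) := by
    by_cases h : M.cr (M.rev k3)
    · right; exact ⟨h, by rw [hk4]; unfold nx; rw [if_pos h]⟩
    · left; exact ⟨h, by rw [hk4]; unfold nx; rw [if_neg h]⟩
  have f4 : M.fac k4 = M.fac m := by
    rcases K4 with h | h <;> rw [h.2] <;> simp [f3]
  have ok4 : M.org k4 = M.org (M.rev e2) := by
    rcases K4 with h | h
    · rw [h.2, org_nxt]; exact H3 h.1
    · have c3 : M.cr (M.nxt k3) := by rw [cr_congr (org_nxt k3)]; exact h.1
      have r4 : ¬ M.cr k4 := by rw [h.2, cr_congr (org_nxt _)]; exact not_cr_rev c3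
      rcases hface _ r4 f4 with h' | h' | h'
      · exfalso
        have h5 : k4 = k3 := visit _ _ r4 rk3 f4 f3 (h'.trans ok3.symm)
        rw [h.2, hk3] at h5
        have h6 := M.nxt.injective h5
        rw [← hk3] at h6
        rw [h6] at c3
        exact rmm c3
      · exfalso
        have h5 : k4 = m := visit _ _ r4 rmm f4 rfl (h'.trans om.symm)
        have h6 : M.nxt (M.nxt (M.nxt m)) = m := by rw [← hk3, ← h.2, h5]
        rcases fac3 h6 fb with h7 | h7 | h7
        · apply yz; rw [← om, ← h7, ob]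
        · apply xz; rw [← ok3, hk3, ← h7, ob]
        · rw [← hk3] at h7
          rw [h7] at rb
          exact rb c3
      · exact h'
  have r4 : ¬ M.cr k4 := by rw [cr_congr ok4]; exact r2'
  have H4 : ¬ M.cr (M.rev k4) → M.nxt k4 = m := by
    intro hk
    have r : ¬ M.cr (M.nxt k4) := by rw [cr_congr (org_nxt k4)]; exact hk
    have hf : M.fac (M.nxt k4) = M.fac m := (fac_nxt k4).trans f4
    rcases hface _ r hf with h | h | h
    · exfalso
      have h5 : M.nxt k4 = k3 := visit _ _ r rk3 hf f3 (h.trans ok3.symm)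
      rw [hk3] at h5
      have h6 := M.nxt.injective h5
      apply yz; rw [← om, ← h6, ok4]
    · exact visit _ _ r rmm hf rfl (h.trans om.symm)
    · exfalso
      rw [org_nxt, ← ok4] at h
      exact noLoop' G r4 hk h
  have g4 : gs k4 := by
    by_contra hg
    have hk : ¬ M.cr (M.rev k4) := fun h => hg (Or.inl h)
    have hn4 := H4 hk
    have hs := side G hv ht hc h2 (c := e1) (k := k4) (s := k3) i1
      (by rw [← he2, d3]; exact d1.symm) r4 hk
      ok4 (by rw [← org_nxt k4, hn4, om])
      rk3 (f3.trans f4.symm) (by rw [ok3, o1]; exact wx)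
      (by rw [ok3]; exact xz) (by rw [ok3]; exact xy) hg
    have h4 := hs.1
    have h5 : M.rot (M.rev k4) = M.rev e1 := by rw [← h4, rot_nxt]
    have h6 : M.rot m = M.rev k4 := by rw [← hn4, rot_nxt]
    apply hno e1 o1
    intro e' h'
    have h7 : M.rot (M.rot (M.rot (M.rev e1))) = M.rev e1 := by rw [rotrev1, h6, h5]
    rcases org3 h7 h' with h | h | h
    · rw [h, rev_rev']; exact ⟨r1', (ie e1 o1).1⟩
    · rw [h, rotrev1]; exact ⟨rmm, by rw [rm]; exact rn⟩
    · rw [h, rotrev1, h6, rev_rev']; exact ⟨hk, r4⟩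
  have nx4 : nx k4 = m := by
    by_cases h : M.cr (M.rev k4)
    · have e4 : nx k4 = M.nxt (M.nxt k4) := by unfold nx; rw [if_pos h]
      rw [e4]
      have c4 : M.cr (M.nxt k4) := by rw [cr_congr (org_nxt k4)]; exact h
      have r5 : ¬ M.cr (M.nxt (M.nxt k4)) := by rw [cr_congr (org_nxt _)]; exact not_cr_rev c4
      have f5 : M.fac (M.nxt (M.nxt k4)) = M.fac m := by simp [f4]
      rcases hface _ r5 f5 with h' | h' | h'
      · exfalso
        have h5 : M.nxt (M.nxt k4) = k3 := visit _ _ r5 rk3 f5 f3 (h'.trans ok3.symm)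
        rw [hk3] at h5
        have h6 := M.nxt.injective h5
        rw [h6] at c4
        exact rmm c4
      · exact visit _ _ r5 rmm f5 rfl (h'.trans om.symm)
      · exfalso
        have h5 : M.nxt (M.nxt k4) = k4 := visit _ _ r5 r4 f5 f4 (h'.trans ok4.symm)
        rcases K4 with h8 | h8
        · have h6 : M.nxt k4 = k3 := M.nxt.injective (h5.trans h8.2)
          rw [h6] at c4
          exact rk3 c4
        · have h6 : M.nxt k4 = M.nxt k3 := M.nxt.injective (h5.trans h8.2)
          have h7 := M.nxt.injective h6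
          apply xz; rw [← ok3, ← h7, ok4]
    · have e4 : nx k4 = M.nxt k4 := by unfold nx; rw [if_neg h]
      rw [e4]; exact H4 h
  refine ⟨d3, d2, hncr, hnn, g3, ok4, g4, nx4, ?_, ?_⟩
  · by_contra h
    exact hb M G X e ie hno d3 d2 hbad h
  · by_contra h
    have h3 : M.rot e2 = e := d3
    refine hb M G X e2 i2 (fun e' h' => hno e' (h'.trans o2)) (by rw [h3]) 
      (by rw [h3]; exact e12) h (by rw [h3]; exact hbad)

end Pool.Agent.H21.OneP
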