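import Pool.Agent.H21.OneP.Loc

/-! Module C8: the `ψ`-cycle at a vertex with a bad side. -/

namespace Pool.Agent.H21.OneP

open Equiv Equiv.Perm Pool.Agent.H74.OneP Pool.Agent.H74.OneP.Drawing

/-- a cycle with at most four elements -/
theorem cyc4 {D : Type*} {p : Perm D} {a b : D} (h : p (p (p (p a))) = a)
    (hs : p.SameCycle a b) :
    b = a ∨ b = p a ∨ b = p (p a) ∨ b = p (p (p a)) := by
  obtain ⟨i, rfl⟩ := hs
  have h3 : (p ^ (4 : ℤ)) a = a := by
    have : (p ^ (4 : ℤ)) a = (p ^ 4) a := by norm_cast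
    rw [this]
    simpa [pow_succ] using h
  have hk : ∀ n : ℤ, (p ^ (4 * n)) a = a := by
    intro n
    rw [zpow_mul]
    exact Function.IsFixedPt.perm_zpow h3 n
  have hdiv : i = 4 * (i / 4) + i % 4 := by omega
  have hmod : i % 4 = 0 ∨ i % 4 = 1 ∨ i % 4 = 2 ∨ i % 4 = 3 := by omega
  have e1 : (p ^ i) a = (p ^ (i % 4)) a := by
    conv_lhs => rw [hdiv, add_comm, zpow_add, Perm.mul_apply, hk]
  rw [e1]
  rcases hmod with h0 | h0 | h0 | h0 <;> rw [h0]
  · left; simp
  · right; left; simp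
  · right; right; left
    have : (p ^ (2 : ℤ)) a = (p ^ 2) a := by norm_cast
    rw [this]; simp [pow_succ]
  · right; right; right
    have : (p ^ (3 : ℤ)) a = (p ^ 3) a := by norm_cast
    rw [this]; simp [pow_succ]

theorem nx_cr {M : Drawing} {k : M.D} (h : M.cr (M.rev k)) : nx k = M.nxt (M.nxt k) := by
  unfold nx; rw [if_pos h]

theorem nx_not {M : Drawing} {k : M.D} (h : ¬ M.cr (M.rev k)) : nx k = M.nxt k := by
  unfold nx; rw [if_neg h]

theorem kp_cr {M : Drawing} {k : M.D} (h : M.cr (M.rev k)) : kp k = M.nxt k := by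
  unfold kp; rw [if_pos h]

theorem kp_not {M : Drawing} {k : M.D} (h : ¬ M.cr (M.rev k)) :
    kp k = M.nxt (M.nxt (M.rev k)) := by
  unfold kp; rw [if_neg h]

/-- the target of the crossing dart of a good side -/
theorem target {M : Drawing} {k : M.D} (h : gs k) : M.org (M.rev (kp k)) = M.org (nx k) := by
  by_cases hc : M.cr (M.rev k)
  · rw [kp_cr hc, nx_cr hc, ← org_nxt]
  · rcases h with h | h
    · exact absurd h hc
    · rw [kp_not hc, nx_not hc, ← org_nxt, h.2.2, org_nxt]

/-- in the corner of an interior vertex, the next vertex dart -/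
theorem nx_corner {M : Drawing} (G : M.Good) (hc : CornerStmt) {e : M.D} (ie : inter e) :
    nx (M.nxt e) = M.rev (M.rot e) := by
  rcases (hc M G e ie).2 with h | h
  · rw [nx_not h.1, h.2]
  · rw [nx_cr h.1, h.2]

/-- the ends of a good side are not interior -/
theorem not_inter_target {M : Drawing} {x d : M.D} (hx : M.cr x) (hd : M.org (M.rev x) = M.org d) :
    ¬ inter d := by
  intro h
  have := (h (M.rev x) hd).2
  rw [rev_rev'] at this
  exact this hx

theorem c8 (hs : StepStmt) (hb : BadStmt) (hc : CornerStmt) (hv : VisitStmt) : BadOrbStmt := by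
  classical
  intro M G X τ hτ e ie hno hbad ea hea x hx
  obtain ⟨d3, d2, hncr, hnn, g3, ok4, g4, nx4, g1, g2⟩ := hb M G X e ie hno hbad
  have r0 : ¬ M.cr e := (ie e rfl).1
  have r0' : ¬ M.cr (M.rev e) := (ie e rfl).2
  have d1 : M.rot e ≠ e := (hv M G).2 e r0
  have o1 : M.org (M.rot e) = M.org e := org_rot e
  have o2 : M.org (M.rot (M.rot e)) = M.org e := (org_rot _).trans o1
  set e1 := M.rot e with he1
  set e2 := M.rot e1 with he2
  set n := M.nxt e with hn
  set m := M.rev n with hm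
  set k3 := M.nxt m with hk3
  set k4 := nx k3 with hk4
  have i1 : inter e1 := fun e' h => ie e' (h.trans o1)
  have i2 : inter e2 := fun e' h => ie e' (h.trans o2)
  have r1' : ¬ M.cr (M.rev e1) := (ie e1 o1).2
  have r2' : ¬ M.cr (M.rev e2) := (ie e2 o2).2
  have rn : ¬ M.cr n := by rw [hn, cr_congr (org_nxt e)]; exact r0'
  have on : M.org n = M.org (M.rev e) := org_nxt e
  have om : M.org m = M.org (M.rev e1) := by
    rw [hm, ← org_nxt n, hnn]
  have rm : M.rev m = n := by rw [hm, rev_rev']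
  have rmm : ¬ M.cr m := by rw [cr_congr om]; exact r1'
  have xy : M.org (M.rev e) ≠ M.org (M.rev e1) := fun h => d1 (eInj G ie rfl o1 h).symm
  have e12 : e1 ≠ e2 := fun h => d1 (M.rot.injective h).symm
  have ok3 : M.org k3 = M.org (M.rev e) := by rw [hk3, org_nxt, rm, on]
  have rk3 : ¬ M.cr k3 := by rw [cr_congr ok3]; exact r0'
  have rk4 : ¬ M.cr k4 := by rw [cr_congr ok4]; exact r2'
  set k1 := M.nxt e1 with hk1
  set k2 := M.nxt e2 with hk2
  have ok1 : M.org k1 = M.org (M.rev e1) := org_nxt e1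
  have ok2 : M.org k2 = M.org (M.rev e2) := org_nxt e2
  have rk1 : ¬ M.cr k1 := by rw [cr_congr ok1]; exact r1'
  have rk2 : ¬ M.cr k2 := by rw [cr_congr ok2]; exact r2'
  have nx1 : nx k1 = M.rev e2 := nx_corner G hc i1
  have nx2 : nx k2 = M.rev e := by
    have := nx_corner G hc i2
    rwa [d3] at this
  -- the four crossing darts
  let X1 : M.XD := ⟨kp k1, cr_kp g1⟩
  let X2 : M.XD := ⟨kp k2, cr_kp g2⟩
  let X3 : M.XD := ⟨kp k3, cr_kp g3⟩
  let X4 : M.XD := ⟨kp k4, cr_kp g4⟩
  have t1 : M.org (M.rev X1.1) = M.org (M.rev e2) := by rw [target g1, nx1]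
  have t2 : M.org (M.rev X2.1) = M.org (M.rev e) := by rw [target g2, nx2]
  have t3 : M.org (M.rev X3.1) = M.org (M.rev e2) := by rw [target g3, ← hk4, ok4]
  have t4 : M.org (M.rev X4.1) = M.org (M.rev e1) := by rw [target g4, nx4, om]
  let P : M.D → Prop := fun u => inter (M.rev u) ∨
    ∃ x'' : M.XD, (x'' = X1 ∨ x'' = X2 ∨ x'' = X3 ∨ x'' = X4) ∧
      M.org (M.rev x''.1) = M.org (M.rev u)
  have Px : ∀ u, M.org (M.rev u) = M.org (M.rev e) → P u := fun u h =>
    Or.inr ⟨X2, Or.inr (Or.inl rfl), t2.trans h.symm⟩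
  have Py : ∀ u, M.org (M.rev u) = M.org (M.rev e1) → P u := fun u h =>
    Or.inr ⟨X4, Or.inr (Or.inr (Or.inr rfl)), t4.trans h.symm⟩
  have Pz : ∀ u, M.org (M.rev u) = M.org (M.rev e2) → P u := fun u h =>
    Or.inr ⟨X1, Or.inl rfl, t1.trans h.symm⟩
  have Pk1 : ¬ M.cr (M.rev k1) → P k1 := fun h => Pz _ (by
    rw [← org_nxt, ← nx_not h, nx1])
  have Pk2 : ¬ M.cr (M.rev k2) → P k2 := fun h => Px _ (by
    rw [← org_nxt, ← nx_not h, nx2])
  have Pk3 : ¬ M.cr (M.rev k3) → P k3 := fun h => Pz _ (by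
    rw [← org_nxt, ← nx_not h, ← hk4, ok4])
  have Pk4 : ¬ M.cr (M.rev k4) → P k4 := fun h => Py _ (by
    rw [← org_nxt, ← nx_not h, nx4, om])
  have rotn : M.rot⁻¹ n = k3 := by rw [hk3, nxt_apply, rm]
  have rotm : M.rot⁻¹ m = M.rev e1 := by rw [← hnn, nxt_apply]
  obtain ⟨S1, T1⟩ := hs M τ hτ P k1 k2 rk1 g1 g2
    (fun _ => Py _ (by rw [rev_rev', ok1]))
    (by
      rw [nx1]
      refine LkP.step _ _ r2' (by rw [rev_rev']; exact (ie e2 o2).1)
        (Or.inl (by rw [rev_rev']; exact i2)) ?_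
      rw [← nxt_apply]; exact LkP.refl _) Pk2 X1 X2 rfl rfl
  obtain ⟨S2, T2⟩ := hs M τ hτ P k2 k3 rk2 g2 g3
    (fun _ => Pz _ (by rw [rev_rev', ok2]))
    (by
      rw [nx2]
      refine LkP.step _ _ r0' (by rw [rev_rev']; exact r0)
        (Or.inl (by rw [rev_rev']; exact ie)) ?_
      rw [← nxt_apply]
      refine LkP.step _ _ rn hncr (Py _ om) ?_
      rw [← hn, rotn]; exact LkP.refl _) Pk3 X2 X3 rfl rfl
  obtain ⟨S3, T3⟩ := hs M τ hτ P k3 k4 rk3 g3 g4
    (fun _ => Px _ (by rw [rev_rev', ok3])) (LkP.refl _) Pk4 X3 X4 rfl rfl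
  obtain ⟨S4, T4⟩ := hs M τ hτ P k4 k1 rk4 g4 g1
    (fun _ => Pz _ (by rw [rev_rev', ok4]))
    (by
      rw [nx4]
      refine LkP.step _ _ rmm (by rw [rm]; exact rn) (Px _ (by rw [rm, on])) ?_
      rw [rotm]
      refine LkP.step _ _ r1' (by rw [rev_rev']; exact (ie e1 o1).1)
        (Or.inl (by rw [rev_rev']; exact i1)) ?_
      rw [← nxt_apply]; exact LkP.refl _) Pk1 X4 X1 rfl rfl
  -- ψ
  set ψ := M.rho⁻¹ * τ with hψ
  have q1 : ψ X1 = X2 := S1
  have q2 : ψ X2 = X3 := S2
  have q3 : ψ X3 = X4 := S3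
  have q4 : ψ X4 = X1 := S4
  have c11 : ψ.SameCycle X1 X1 := SameCycle.refl _ _
  have c12 : ψ.SameCycle X1 X2 := by rw [← q1]; exact sameCycle_apply_right.2 c11
  have c13 : ψ.SameCycle X1 X3 := by rw [← q2]; exact sameCycle_apply_right.2 c12
  have c14 : ψ.SameCycle X1 X4 := by rw [← q3]; exact sameCycle_apply_right.2 c13
  have call : ∀ x', ψ.SameCycle X1 x' → (x' = X1 ∨ x' = X2 ∨ x' = X3 ∨ x' = X4) := by
    intro x' h
    have h4 : ψ (ψ (ψ (ψ X1))) = X1 := by rw [q1, q2, q3, q4]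
    have := cyc4 h4 h
    rwa [q1, q2, q3] at this
  have hx1 : ψ.SameCycle X1 x := by
    rcases hea with h | h
    · have : x = X1 := Subtype.ext (by rw [hx, h])
      rw [this]
    · have : x = X2 := Subtype.ext (by rw [hx, h])
      rw [this]; exact c12
  have hfrom : ∀ x', ψ.SameCycle x x' → (x' = X1 ∨ x' = X2 ∨ x' = X3 ∨ x' = X4) :=
    fun x' h => call x' (hx1.trans h)
  have hto : ∀ x', (x' = X1 ∨ x' = X2 ∨ x' = X3 ∨ x' = X4) → ψ.SameCycle x x' := by
    rintro x' (h | h | h | h) <;> rw [h]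
    · exact hx1.symm
    · exact hx1.symm.trans c12
    · exact hx1.symm.trans c13
    · exact hx1.symm.trans c14
  have oea : M.org ea = M.org e := by rcases hea with h | h <;> rw [h]; exacts [o1, o2]
  have uncr3 : M.cr (M.rev k3) → M.nxt (M.nxt k3) = k4 := fun h => by rw [hk4, nx_cr h]
  have uncr3' : ¬ M.cr (M.rev k3) → M.nxt k3 = k4 := fun h => by rw [hk4, nx_not h]
  have own : ∀ k, ¬ M.cr k → gs k → ∀ e', inter e' → gs (M.nxt e') → kp k = kp (M.nxt e') →
      k = M.nxt e' ∨ (M.cr (M.rev k) ∧ k = M.nxt (M.rev (M.nxt e')) ∧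
        nx k = M.rev (M.nxt e')) := by
    intro k hk hg e' ie' hg' h
    by_cases h1 : M.cr (M.rev k)
    · by_cases h2 : M.cr (M.rev (M.nxt e'))
      · left
        rw [kp_cr h1, kp_cr h2] at h
        exact M.nxt.injective h
      · right
        rw [kp_cr h1, kp_not h2] at h
        have h3 := M.nxt.injective h
        refine ⟨h1, h3, ?_⟩
        rcases hg' with h4 | h4
        · exact absurd h4 h2
        · rw [nx_cr h1, h3, h4.2.2]
    · by_cases h2 : M.cr (M.rev (M.nxt e'))
      · exfalso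
        have hc1 := cr_kp hg
        have ht1 := target hg
        rw [kp_not h1, kp_cr h2] at h
        have h3 := M.nxt.injective (M.nxt.injective h)
        rw [nx_not h1, org_nxt, h3] at ht1
        exact not_inter_target hc1 ht1 ie'
      · left
        rw [kp_not h1, kp_not h2] at h
        exact M.rev.injective (M.nxt.injective (M.nxt.injective h))
  refine ⟨⟨M.org ea, Or.inl rfl, ?_⟩, ?_, ?_, ?_, ?_, ?_⟩
  · -- a
    intro x' e' hxx ie' hg' hx'
    left
    rw [oea]
    have key2 : ∀ k, k = M.nxt (M.rev (M.nxt e')) → nx k = M.rev (M.nxt e') →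
        k = M.nxt m ∨ nx k = m → False := by
      intro k h1 h2 h3
      have h4 : M.rev (M.nxt e') = m := by
        rcases h3 with h3 | h3
        · exact M.nxt.injective (h1.symm.trans h3)
        · exact h2.symm.trans h3
      have h5 : M.nxt e' = M.nxt e := M.rev.injective h4
      rw [h5] at hg'
      exact hbad hg'
    have ncr' : ∀ k, ¬ M.cr k → gs k → kp k = kp (M.nxt e') → ∀ f, inter f → k = M.nxt f →
        e' = f := by
      intro k hk hg h f hf hkf
      rcases own k hk hg e' ie' hg' h with h1 | ⟨h1, h2, h3⟩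
      · exact M.nxt.injective (h1.symm.trans hkf)
      · exfalso
        have h4 : f = M.rev (M.nxt e') := M.nxt.injective (hkf.symm.trans h2)
        have := target hg
        rw [h3, ← h4] at this
        exact not_inter_target (cr_kp hg) this hf
    rcases hfrom x' hxx with h | h | h | h
    · rw [h] at hx'
      rw [ncr' k1 rk1 g1 hx' e1 i1 rfl, o1]
    · rw [h] at hx'
      rw [ncr' k2 rk2 g2 hx' e2 i2 rfl, o2]
    · exfalso
      rw [h] at hx'
      rcases own k3 rk3 g3 e' ie' hg' hx' with h1 | ⟨h1, h2, h3⟩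
      · have h4 : m = e' := M.nxt.injective h1
        apply hno e1 o1
        intro d hd
        exact ie' d (hd.trans (om.symm.trans (by rw [h4])))
      · exact key2 k3 h2 h3 (Or.inl rfl)
    · exfalso
      rw [h] at hx'
      rcases own k4 rk4 g4 e' ie' hg' hx' with h1 | ⟨h1, h2, h3⟩
      · by_cases h5 : M.cr (M.rev k3)
        · have h6 : M.nxt k3 = e' := M.nxt.injective ((uncr3 h5).trans h1)
          apply (ie' e' rfl).1
          rw [← h6, cr_congr (org_nxt k3)]; exact h5
        · have h6 : k3 = e' := M.nxt.injective ((uncr3' h5).trans h1)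
          apply hno e rfl
          intro d hd
          exact ie' d (hd.trans (ok3.symm.trans (by rw [h6])))
      · exact key2 k4 h2 h3 (Or.inr nx4)
  · -- b
    intro f x₂ hf hgf hx₂ hor
    rcases hor with h | ⟨e', h1, h2⟩
    · rw [oea] at h
      rcases org3 d3 h with h3 | h3 | h3
      · rw [h3] at hgf; exact absurd hgf hbad
      · have : x₂ = X1 := Subtype.ext (by rw [hx₂, h3])
        exact hto _ (Or.inl this)
      · have : x₂ = X2 := Subtype.ext (by rw [hx₂, h3])
        exact hto _ (Or.inr (Or.inl this))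
    · exfalso
      apply hno e' (h1.trans oea)
      intro d hd
      exact hf d (hd.trans h2)
  · -- c
    intro e' h
    right
    rcases org3 d3 (h.trans oea) with h3 | h3 | h3
    · exact ⟨X2, hto _ (Or.inr (Or.inl rfl)), by rw [h3]; exact t2⟩
    · exact ⟨X4, hto _ (Or.inr (Or.inr (Or.inr rfl))), by rw [h3]; exact t4⟩
    · exact ⟨X1, hto _ (Or.inl rfl), by rw [h3]; exact t1⟩
  · -- d
    intro x' u hxx hu
    have hP : P u := by
      rcases hfrom x' hxx with h | h | h | h <;> rw [h] at hu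
      · exact T1 u hu
      · exact T2 u hu
      · exact T3 u hu
      · exact T4 u hu
    rcases hP with h | ⟨x'', h1, h2⟩
    · exact Or.inl h
    · exact Or.inr ⟨x'', hto _ h1, h2⟩
  · -- f
    intro h
    exfalso
    rcases hea with h' | h' <;> rw [h'] at h
    · rw [← he2, d3] at h
      exact d1 h.symm
    · rw [d3] at h
      exact e12 h
  · -- g
    intro _ _
    refine ⟨X2, X3, X4, X1, hto _ (Or.inr (Or.inl rfl)), S2.symm, S3.symm, S4.symm, Or.inr ?_⟩
    refine ⟨(hτ.same _ _).2 (t3.trans t1.symm), fun h => ?_⟩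
    have := (hτ.same _ _).1 h
    rw [t2, t4] at this
    exact xy this

end Pool.Agent.H21.OneP
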