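import Pool.Agent.H74.OneP.Stmts

/-! Local lemmas used by several modules. -/

namespace Pool.Agent.H21.OneP

open Equiv Equiv.Perm Pool.Agent.H74.OneP Pool.Agent.H74.OneP.Drawing

/-- different darts at an interior vertex lead to different vertices -/
theorem eInj {M : Drawing} (G : M.Good) {e a b : M.D} (he : inter e)
    (ha : M.org a = M.org e) (hb : M.org b = M.org e)
    (h : M.org (M.rev a) = M.org (M.rev b)) : a = b := by
  refine G.no_multi (he a ha).1 (ha.trans hb.symm) ?_
  rw [far_of_not (he a ha).2, far_of_not (he b hb).2]; exact h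

theorem eNe {M : Drawing} (G : M.Good) {e a : M.D} (he : inter e)
    (ha : M.org a = M.org e) : M.org (M.rev a) ≠ M.org e := by
  have := G.no_loop (he a ha).1
  rw [far_of_not (he a ha).2, ha] at this
  exact this

theorem noLoop' {M : Drawing} (G : M.Good) {k : M.D} (hk : ¬ M.cr k) (hk' : ¬ M.cr (M.rev k)) :
    M.org (M.rev k) ≠ M.org k := by
  have := G.no_loop hk
  rwa [far_of_not hk'] at this

/-- a cycle with at most three elements -/
theorem cyc3 {D : Type*} {p : Perm D} {a b : D} (h : p (p (p a)) = a) (hs : p.SameCycle a b) :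
    b = a ∨ b = p a ∨ b = p (p a) := by
  obtain ⟨i, rfl⟩ := hs
  have h3 : (p ^ (3 : ℤ)) a = a := by
    have : (p ^ (3 : ℤ)) a = (p ^ 3) a := by norm_cast
    rw [this]
    simpa [pow_succ] using h
  have hk : ∀ n : ℤ, (p ^ (3 * n)) a = a := by
    intro n
    rw [zpow_mul]
    exact Function.IsFixedPt.perm_zpow h3 n
  have hdiv : i = 3 * (i / 3) + i % 3 := by omega
  have hmod : i % 3 = 0 ∨ i % 3 = 1 ∨ i % 3 = 2 := by omega
  have e1 : (p ^ i) a = (p ^ (i % 3)) a := by
    conv_lhs => rw [hdiv, add_comm, zpow_add, Perm.mul_apply, hk]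
  rw [e1]
  rcases hmod with h0 | h0 | h0 <;> rw [h0]
  · left; simp
  · right; left; simp
  · right; right
    have : (p ^ (2 : ℤ)) a = (p ^ 2) a := by norm_cast
    rw [this]; simp [pow_succ]

/-- a point with three darts -/
theorem org3 {M : Drawing} {a b : M.D} (h : M.rot (M.rot (M.rot a)) = a)
    (ho : M.org b = M.org a) : b = a ∨ b = M.rot a ∨ b = M.rot (M.rot a) :=
  cyc3 h ((M.org_iff a b).1 ho.symm)

theorem fac3 {M : Drawing} {a b : M.D} (h : M.nxt (M.nxt (M.nxt a)) = a)
    (ho : M.fac b = M.fac a) : b = a ∨ b = M.nxt a ∨ b = M.nxt (M.nxt a) :=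
  cyc3 h ((M.fac_iff a b).1 ho.symm)

/-- the triangle lemma -/
theorem tri {M : Drawing} (G : M.Good) (ht : TriStmt) {a b k s t : M.D}
    (ha : inter a) (hb : M.org b = M.org a) (hab : a ≠ b) (hk : ¬ M.cr k)
    (hk' : ¬ M.cr (M.rev k)) (hka : M.org k = M.org (M.rev a))
    (hkb : M.org (M.rev k) = M.org (M.rev b))
    (hs : ¬ M.cr s) (hsf : M.fac s = M.fac k) (s1 : M.org s ≠ M.org a)
    (s2 : M.org s ≠ M.org (M.rev a)) (s3 : M.org s ≠ M.org (M.rev b))
    (htr : ¬ M.cr t) (htf : M.fac t = M.fac (M.rev k)) (t1 : M.org t ≠ M.org a)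
    (t2 : M.org t ≠ M.org (M.rev a)) (t3 : M.org t ≠ M.org (M.rev b)) : False := by
  have fk : M.far k = M.rev k := far_of_not hk'
  obtain ⟨col, c1, c2, c3, c4, c5, c6⟩ := ht M G a b k ha hb hab hk hka (by rw [fk]; exact hkb)
  have cst : ∀ p : M.V ⊕ M.X, (∀ d, M.org d = p → ¬ M.cr d) → p ≠ M.org a →
      p ≠ M.org (M.rev a) → p ≠ M.org (M.rev b) → ∀ d d', M.org d = p → M.org d' = p →
      col d = col d' := by
    intro p hp q1 q2 q3 d d' hd hd'
    refine const_of_rot (p := p) ?_ hd hd'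
    intro x hx
    exact (c5 x (hp x hx) (by rw [hx]; exact q1) (by rw [hx]; exact q2)
      (by rw [hx]; exact q3)).1
  have es : col s = col k := const_of_nxt (p := M.fac k) (fun d _ => c1 d) hsf rfl
  have et : col t = col (M.rev k) := const_of_nxt (p := M.fac (M.rev k)) (fun d _ => c1 d) htf rfl
  apply c6 hk'
  by_cases hst : M.org s = M.org t
  · have : col s = col t := cst (M.org s) (fun d hd => by rw [cr_congr hd]; exact hs) s1 s2 s3 s t
      rfl hst.symm
    rw [← es, ← et, this]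
  · obtain ⟨d, hd, hd1, hd2⟩ := G.across hk hk' hs htr hsf htf (by rw [hka]; exact s2)
      (by rw [hkb]; exact s3) (by rw [hka]; exact t2) (by rw [hkb]; exact t3) hst
    have h1 : col d = col s := cst (M.org s) (fun d hd => by rw [cr_congr hd]; exact hs) s1 s2 s3
      d s hd1 rfl
    have h2 : col (M.far d) = col t := cst (M.org t)
      (fun d hd => by rw [cr_congr hd]; exact htr) t1 t2 t3 (M.far d) t hd2 rfl
    have h3 := (c5 d hd (by rw [hd1]; exact s1) (by rw [hd1]; exact s2)
      (by rw [hd1]; exact s3)).2 (by rw [hd2]; exact t1) (by rw [hd2]; exact t2)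
      (by rw [hd2]; exact t3)
    rcases h3 with h3 | h3
    · rw [← es, ← et, ← h1, ← h2, h3]
    · exact absurd h3.1 hk'

end Pool.Agent.H21.OneP
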